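import Pool.Agent.H.MP_bb030f_lc.Red

set_option autoImplicit false

namespace Pool.Agent.Results.MP_38a5c8_lc.Full

open Pool.Agent.Lib.CX Pool.Agent.H.MP_bb030f_lc

/-- A strong clique: a clique meeting every maximal stable set. -/
def Strong {V : Type} (G : SimpleGraph V) (C : Set V) : Prop :=
  G.IsClique C ∧ ∀ S : Set V, Maximal G.IsIndepSet S → (C ∩ S).Nonempty

/-- Every edge is contained in a strong clique. -/
def EdgeStrong {V : Type} (G : SimpleGraph V) : Prop :=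
  ∀ u v, G.Adj u v → ∃ C, Strong G C ∧ u ∈ C ∧ v ∈ C

theorem result : NPHard fun a : Gr => ¬ EdgeStrong a.G := by
  refine sandwich _ (fun a _ h u v e => ?_) fun a h S hS u v hu hv e => ?_
  · obtain ⟨Q, h1, h2⟩ := ext_clique a.G (SimpleGraph.isClique_pair.2 fun _ => e)
    exact ⟨Q, ⟨h2.1, fun S hS => h Q S h2 hS⟩, h1 (by simp), h1 (by simp)⟩
  · obtain ⟨C, ⟨h1, h2⟩, h3, h4⟩ := h u v e
    obtain ⟨s, h5, h6⟩ := h2 S hS
    exact ⟨s, h6, h1 h5 h3 fun e => hu (e ▸ h6), h1 h5 h4 fun e => hv (e ▸ h6)⟩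

end Pool.Agent.Results.MP_38a5c8_lc.Full
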